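import Pool.Agent.helper97.KR.Spec

set_option autoImplicit false

namespace Pool.Agent.helper97.KR

open Finset Classical

noncomputable section

theorem DG_first {V E : Type} (ends : E → Sym2 V) (S : Finset V) (T : Set E) (h : Con ends S T)
    (v : V) (hv : v ∈ S) (h2 : 2 ≤ S.card) : ∃ e ∈ T, v ∈ ends e := by
  obtain ⟨u, hu, huv⟩ := Finset.exists_mem_ne (by omega : 1 < S.card) v
  rcases Relation.ReflTransGen.cases_head (h v hv u hu) with h1 | ⟨c, ⟨e, he, hec⟩, _⟩
  · exact absurd h1.symm huv
  · exact ⟨e, he, by rw [hec]; exact Sym2.mem_mk_left v c⟩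

theorem DG : DG_stmt := by
  intro V E ends S F hG h2
  obtain ⟨T, hTc, hTcon, hTd, hTF⟩ := hG.tr
  refine ⟨fun v hv => ⟨?_, ?_⟩, ?_⟩
  · have hex : ∀ i : Fin 3, ∃ e, e ∈ T i ∧ v ∈ ends e := by
      intro i
      obtain ⟨e, he, hve⟩ := DG_first ends S (T i : Set E) (hTcon i) v hv h2
      exact ⟨e, by exact_mod_cast he, hve⟩
    choose g hg hgv using hex
    have hinj : Function.Injective g := by
      intro i j hij
      by_contra hne
      have h1 : g i ∈ T j := by rw [hij]; exact hg j
      exact (Finset.disjoint_left.mp (hTd i j hne)) (hg i) h1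
    have hsub : Finset.univ.image g ⊆ F.filter fun e => v ∈ ends e := by
      intro e he
      rw [Finset.mem_image] at he
      obtain ⟨i, _, rfl⟩ := he
      rw [Finset.mem_filter]
      exact ⟨(hTF _).mpr ⟨i, hg i⟩, hgv i⟩
    have hc := Finset.card_le_card hsub
    rw [Finset.card_image_of_injective _ hinj, Finset.card_univ, Fintype.card_fin] at hc
    exact hc
  · have h1 : ins ends F (S.erase v) = F.filter fun e => ¬ v ∈ ends e := by
      unfold ins
      apply Finset.filter_congr
      intro e he
      constructor
      · intro h hve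
        exact (Finset.mem_erase.mp (h v hve)).1 rfl
      · intro h w hw
        rw [Finset.mem_erase]
        refine ⟨?_, hG.sub e he w hw⟩
        rintro rfl
        exact h hw
    rw [h1]
    unfold dgr
    have h3 := Finset.card_filter_add_card_filter_not (s := F) (fun e => v ∈ ends e)
    omega
  · unfold dgr
    have h1 : ∀ v ∈ S, (F.filter fun e => v ∈ ends e).card = ∑ e ∈ F, if v ∈ ends e then 1 else 0 := by
      intro v _
      rw [Finset.card_filter]
    rw [Finset.sum_congr rfl h1, Finset.sum_comm]
    have h2 : ∀ e ∈ F, (∑ v ∈ S, if v ∈ ends e then 1 else 0) = 2 := by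
      intro e he
      rw [← Finset.card_filter]
      have hl := hG.loop e he
      have hs := hG.sub e he
      revert hl hs
      generalize ends e = z
      induction z using Sym2.ind with
      | _ a b =>
        intro hl hs
        have hab : a ≠ b := fun h => hl (by rw [Sym2.mk_isDiag_iff]; exact h)
        have : (S.filter fun v => v ∈ s(a, b)) = {a, b} := by
          ext w
          simp only [Finset.mem_filter, Sym2.mem_iff, Finset.mem_insert, Finset.mem_singleton]
          constructor
          · exact fun h => h.2
          · intro h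
            exact ⟨hs w (Sym2.mem_iff.mpr h), h⟩
        rw [this, Finset.card_pair hab]
    rw [Finset.sum_congr rfl h2, Finset.sum_const, smul_eq_mul, mul_comm]

end

end Pool.Agent.helper97.KR
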